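import Pool.Agent.P8H80.QN.Stm
import Pool.Agent.Helper654.PtakN

/-!
Project QN (helper80), package VN (von Neumann inequality on a disc), by helper86.
-/

set_option autoImplicit false

namespace Pool.Agent.P8H86.QN

open Polynomial Filter Topology Pool.Agent.P8H80.QN

/-- a finite-dimensional operator is annihilated by a product of linear factors at its eigenvalues -/
lemma annih {n : ℕ} (hn : 1 ≤ n) (A : E n →L[ℂ] E n) {t : ℝ} (hA : ‖A‖ ≤ t) :
    ∃ (m : ℕ) (z : Fin (m + 1) → ℂ), (∀ j, ‖z j‖ ≤ t) ∧ aeval A (∏ j, (X - C (z j))) = 0 := by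
  obtain ⟨f, hf⟩ : ∃ f : E n →ₗ[ℂ] E n, f = (A : E n →ₗ[ℂ] E n) := ⟨_, rfl⟩
  obtain ⟨L, hL⟩ : ∃ L, L = f.charpoly.roots.toList := ⟨_, rfl⟩
  have hsplit : f.charpoly = (f.charpoly.roots.map fun a => X - C a).prod :=
    ((IsAlgClosed.splits f.charpoly).eq_prod_roots_of_monic f.charpoly_monic)
  have hprod : (L.map fun a => X - C a).prod = f.charpoly := by
    rw [hsplit, hL, ← Multiset.prod_coe, ← Multiset.map_coe, Multiset.coe_toList]
  have hlen : L.length = n := by
    rw [hL, Multiset.length_toList, (splits_iff_card_roots.1 (IsAlgClosed.splits f.charpoly)),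
      LinearMap.charpoly_natDegree, finrank_euclideanSpace_fin]
  obtain ⟨m, hm⟩ : ∃ m, L.length = m + 1 := ⟨n - 1, by omega⟩
  have key : ∀ μ ∈ L, ‖μ‖ ≤ t := by
    intro μ hmem
    rw [hL, Multiset.mem_toList, mem_roots f.charpoly_monic.ne_zero] at hmem
    have h1 : Module.End.HasEigenvalue f μ :=
      (Module.End.hasEigenvalue_iff_isRoot_charpoly f μ).2 hmem
    obtain ⟨v, hv⟩ := h1.exists_hasEigenvector
    have h2 : A v = μ • v := by
      have := hv.apply_eq_smul
      rw [hf] at this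
      exact this
    have h3 : ‖μ‖ * ‖v‖ ≤ t * ‖v‖ := by
      rw [← norm_smul, ← h2]
      exact A.le_of_opNorm_le hA v
    exact le_of_mul_le_mul_right h3 (norm_pos_iff.2 hv.2)
  refine ⟨m, fun j => L[(finCongr hm.symm j).1], fun j => key _ (List.getElem_mem _), ?_⟩
  · have h4 : (∏ j : Fin (m + 1), (X - C (L[(finCongr hm.symm j).1]))) = f.charpoly := by
      rw [← hprod, ← Fin.prod_univ_fun_getElem]
      exact (finCongr hm.symm).prod_comp fun i : Fin L.length => X - C (L[i.1])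
    rw [h4]
    have h5 : (aeval A f.charpoly : E n →L[ℂ] E n).toLinearMap = aeval f f.charpoly := by
      let Φ : (E n →L[ℂ] E n) →ₐ[ℂ] (E n →ₗ[ℂ] E n) :=
        { ContinuousLinearMap.toLinearMapRingHom with commutes' := fun r => rfl }
      have h6 := aeval_algHom_apply Φ A f.charpoly
      rw [hf] at h6 ⊢
      exact h6.symm
    rw [LinearMap.aeval_self_charpoly] at h5
    ext1 x
    exact congrArg (fun g : E n →ₗ[ℂ] E n => g x) h5

theorem t_VN : S_VN := by
  intro n T l R hn hR hT p K hp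
  obtain ⟨S, hS⟩ : ∃ S : E n →L[ℂ] E n, S = ((R : ℂ)⁻¹) • (T - l • 1) := ⟨_, rfl⟩
  have hRc : (R : ℂ) ≠ 0 := by exact_mod_cast hR.ne'
  have hS1 : ‖S‖ ≤ 1 := by
    apply ContinuousLinearMap.opNorm_le_bound _ zero_le_one
    intro z
    have h1 : S z = (R : ℂ)⁻¹ • (T z - l • z) := by
      rw [hS]
      rfl
    rw [h1, norm_smul, norm_inv, Complex.norm_real, Real.norm_eq_abs, abs_of_pos hR, one_mul]
    have := hT z
    rw [inv_mul_le_iff₀ hR]
    exact this
  obtain ⟨F, hF⟩ : ∃ F : ℂ[X], F = p.comp (C (R : ℂ) * X + C l) := ⟨_, rfl⟩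
  have hTS : aeval S F = aeval T p := by
    rw [hF, aeval_comp]
    congr 1
    rw [map_add, map_mul, aeval_C, aeval_C, aeval_X, hS, Algebra.algebraMap_eq_smul_one,
      Algebra.algebraMap_eq_smul_one, smul_mul_assoc, one_mul, smul_smul, mul_inv_cancel₀ hRc,
      one_smul, sub_add_cancel]
  have hFb : ∀ ζ : ℂ, ‖ζ‖ = 1 → ‖F.eval ζ‖ ≤ K := by
    intro ζ hζ
    rw [hF, eval_comp]
    apply hp
    simp only [eval_add, eval_mul, eval_C, eval_X, add_sub_cancel_right, norm_mul, hζ, mul_one]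
    rw [Complex.norm_real, Real.norm_eq_abs, abs_of_pos hR]
  have hstep : ∀ t : ℝ, 0 < t → t < 1 → ‖aeval ((t : ℂ) • S) F‖ ≤ K := by
    intro t h0 h1
    have h2 : ‖(t : ℂ) • S‖ ≤ t := by
      rw [norm_smul, Complex.norm_real, Real.norm_eq_abs, abs_of_pos h0]
      nlinarith [norm_nonneg S]
    obtain ⟨m, z, hz, hz2⟩ := annih hn ((t : ℂ) • S) h2
    exact Pool.Agent.Helper654.Ptak.vN_gen h0 h1 ((t : ℂ) • S) (h2.trans h1.le) z hz hz2 F K hFb
  have hcont : Tendsto (fun t : ℝ => ‖aeval ((t : ℂ) • S) F‖) (𝓝[<] 1) (𝓝 ‖aeval S F‖) := by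
    have h1 : Continuous (fun t : ℝ => ‖aeval ((t : ℂ) • S) F‖) := by
      simp only [aeval_eq_sum_range]
      fun_prop
    have h2 := h1.tendsto 1
    simp only [Complex.ofReal_one, one_smul] at h2
    exact h2.mono_left nhdsWithin_le_nhds
  rw [← hTS]
  refine le_of_tendsto hcont ?_
  filter_upwards [Ioo_mem_nhdsLT (show (0 : ℝ) < 1 by norm_num)] with t ht
  exact hstep t ht.1 ht.2

end Pool.Agent.P8H86.QN
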